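import Mathlib

/-!
# Denominators in ratios of basic hypergeometric series: common part
-/

open Finset PowerSeries

namespace Pool.Agent.Helper264.QRatio

variable {K : Type*} [Field K]

/-- the `q`-Pochhammer symbol `(x;q)_n` -/
def poch (x q : K) (n : ℕ) : K := ∏ j ∈ range n, (1 - x * q ^ j)

/-- the basic hypergeometric series `₂φ₁(a,b;c;q,z)` as a formal power series in `z` -/
noncomputable def phi (a b c q : K) : PowerSeries K :=
  PowerSeries.mk fun n => poch a q n * poch b q n / (poch q q n * poch c q n)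

/-! ### superadditive products -/

/-- `∏_{k < N} t_k ^ ⌊N/(k+1)⌋` -/
def T (t : ℕ → K) (N : ℕ) : K := ∏ k ∈ range N, t k ^ (N / (k + 1))

lemma T_eq (t : ℕ → K) (N B : ℕ) (h : N ≤ B) : T t N = ∏ k ∈ range B, t k ^ (N / (k + 1)) := by
  unfold T
  apply prod_subset (range_mono h)
  intro k _ hk
  have : N < k + 1 := by simp at hk; omega
  rw [Nat.div_eq_of_lt this, pow_zero]

lemma T_add (A : Subring K) (t : ℕ → K) (ht : ∀ k, t k ∈ A) (M N : ℕ) :
    ∃ x ∈ A, T t (M + N) = x * (T t M * T t N) := by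
  refine ⟨∏ k ∈ range (M + N), t k ^ ((M + N) / (k + 1) - M / (k + 1) - N / (k + 1)),
    A.prod_mem fun k _ => A.pow_mem (ht k) _, ?_⟩
  rw [T_eq t M (M + N) (by omega), T_eq t N (M + N) (by omega)]
  unfold T
  rw [← prod_mul_distrib, ← prod_mul_distrib]
  apply prod_congr rfl
  intro k _
  rw [← pow_add, ← pow_add]
  congr 1
  have : M / (k + 1) + N / (k + 1) ≤ (M + N) / (k + 1) := Nat.div_add_div_le_add_div
  omega

lemma T_prod (A : Subring K) (t : ℕ → K) (ht : ∀ k, t k ∈ A) (N : ℕ) :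
    ∃ x ∈ A, T t N = x * ∏ k ∈ range N, t k := by
  refine ⟨∏ k ∈ range N, t k ^ (N / (k + 1) - 1), A.prod_mem fun k _ => A.pow_mem (ht k) _, ?_⟩
  unfold T
  rw [← prod_mul_distrib]
  apply prod_congr rfl
  intro k hk
  rw [← pow_succ]
  congr 1
  have : 1 ≤ N / (k + 1) := by
    rw [Nat.one_le_div_iff (by omega)]
    simpa using hk
  omega

/-- the coefficients of the inverse of a series -/
lemma inv_mem (A : Subring K) (t : ℕ → K) (ht : ∀ k, t k ∈ A) (F : PowerSeries K)
    (h0 : constantCoeff F = 1) (hF : ∀ n, T t n * coeff n F ∈ A) :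
    ∀ n, T t n * coeff n F⁻¹ ∈ A := by
  intro n
  induction n using Nat.strong_induction_on with
  | _ n ih =>
    rw [PowerSeries.coeff_inv]
    split_ifs with hn
    · subst hn
      rw [h0]; simp [T]
    · rw [h0, inv_one, neg_one_mul, mul_neg, mul_sum]
      apply A.neg_mem
      apply A.sum_mem
      rintro ⟨i, j⟩ hij
      rw [Finset.HasAntidiagonal.mem_antidiagonal] at hij
      simp only at hij ⊢
      split_ifs with hj
      · obtain ⟨x, hx, hxe⟩ := T_add A t ht i j
        rw [← hij, hxe]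
        have : x * (T t i * T t j) * (coeff i F * coeff j F⁻¹) = x * (T t i * coeff i F) * (T t j * coeff j F⁻¹) := by
          ring
        rw [this]
        exact A.mul_mem (A.mul_mem hx (hF i)) (ih j hj)
      · simp [A.zero_mem]

lemma ratio_mem (A : Subring K) (t : ℕ → K) (ht : ∀ k, t k ∈ A) (F G : PowerSeries K) (s : K)
    (h0 : constantCoeff F = 1) (hF : ∀ n, T t n * coeff n F ∈ A)
    (hG : ∀ n, T t (n + 1) * (coeff n G * s) ∈ A) (n : ℕ) :
    T t (n + 1) * (coeff n (G * F⁻¹) * s) ∈ A := by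
  rw [PowerSeries.coeff_mul, sum_mul, mul_sum]
  apply A.sum_mem
  rintro ⟨i, j⟩ hij
  rw [Finset.HasAntidiagonal.mem_antidiagonal] at hij
  simp only at hij ⊢
  obtain ⟨x, hx, hxe⟩ := T_add A t ht (i + 1) j
  have e : n + 1 = i + 1 + j := by omega
  rw [e, hxe]
  have : x * (T t (i + 1) * T t j) * (coeff i G * coeff j F⁻¹ * s)
      = x * (T t (i + 1) * (coeff i G * s)) * (T t j * coeff j F⁻¹) := by ring
  rw [this]
  exact A.mul_mem (A.mul_mem hx (hG i)) (inv_mem A t ht F h0 hF j)

/-! ### localisation -/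

/-- products of factors `1 - c q^j` -/
def Sc (c q : K) : Submonoid K := Submonoid.closure {x | ∃ j : ℕ, x = 1 - c * q ^ j}

lemma Sc_le (A : Subring K) (c q : K) (hc : c ∈ A) (hq : q ∈ A) {x : K} (hx : x ∈ Sc c q) : x ∈ A := by
  have h : Sc c q ≤ A.toSubmonoid := by
    rw [Sc, Submonoid.closure_le]
    rintro _ ⟨j, rfl⟩
    exact A.sub_mem A.one_mem (A.mul_mem hc (A.pow_mem hq j))
  exact h hx

/-- the elements with denominators in `Sc` -/
def L (A : Subring K) (c q : K) (hc : c ∈ A) (hq : q ∈ A) : Subring K where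
  carrier := {x | ∃ e ∈ Sc c q, e * x ∈ A}
  one_mem' := ⟨1, Submonoid.one_mem _, by simp⟩
  zero_mem' := ⟨1, Submonoid.one_mem _, by simp⟩
  mul_mem' := by
    rintro x y ⟨e, he, hx⟩ ⟨e', he', hy⟩
    refine ⟨e * e', Submonoid.mul_mem _ he he', ?_⟩
    have : e * e' * (x * y) = (e * x) * (e' * y) := by ring
    rw [this]; exact A.mul_mem hx hy
  add_mem' := by
    rintro x y ⟨e, he, hx⟩ ⟨e', he', hy⟩
    refine ⟨e * e', Submonoid.mul_mem _ he he', ?_⟩
    have : e * e' * (x + y) = e' * (e * x) + e * (e' * y) := by ring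
    rw [this]
    exact A.add_mem (A.mul_mem (Sc_le A c q hc hq he') hx) (A.mul_mem (Sc_le A c q hc hq he) hy)
  neg_mem' := by
    rintro x ⟨e, he, hx⟩
    exact ⟨e, he, by rw [mul_neg]; exact A.neg_mem hx⟩

lemma L_of_mem (A : Subring K) (c q : K) (hc : c ∈ A) (hq : q ∈ A) {x : K} (hx : x ∈ A) : x ∈ L A c q hc hq :=
  ⟨1, Submonoid.one_mem _, by simpa using hx⟩

lemma L_div (A : Subring K) (c q : K) (hc : c ∈ A) (hq : q ∈ A) (j : ℕ) {x y : K}
    (hy : y ∈ L A c q hc hq) (hxy : (1 - c * q ^ j) * x = y) : x ∈ L A c q hc hq := by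
  obtain ⟨e, he, h⟩ := hy
  refine ⟨e * (1 - c * q ^ j), Submonoid.mul_mem _ he (Submonoid.subset_closure ⟨j, rfl⟩), ?_⟩
  rw [mul_assoc, hxy]; exact h

/-! ### removing the factors `1 - q^k` -/

/-- the regularity hypothesis: `1 - c q^j` is a nonzerodivisor modulo `1 - q^k`. -/
def Reg (A : Subring K) (c q : K) : Prop :=
  ∀ (k j : ℕ) (y : K), y ∈ A → (1 - c * q ^ j) * y / (1 - q ^ (k + 1)) ∈ A → y / (1 - q ^ (k + 1)) ∈ A

lemma Reg.ext {A : Subring K} {c q : K} (hR : Reg A c q) (hc : c ∈ A) (hq : q ∈ A) (k : ℕ) {e : K} (he : e ∈ Sc c q) :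
    ∀ y ∈ A, e * y / (1 - q ^ (k + 1)) ∈ A → y / (1 - q ^ (k + 1)) ∈ A := by
  unfold Sc at he
  induction he using Submonoid.closure_induction with
  | mem x hx =>
    obtain ⟨j, rfl⟩ := hx
    intro y hy h
    exact hR k j y hy h
  | one => intro y _ h; simpa using h
  | mul x y hx hy ihx ihy =>
    intro z hz h
    apply ihy z hz
    apply ihx (y * z) (A.mul_mem (Sc_le A c q hc hq hy) hz)
    rw [← mul_assoc]; exact h

lemma clear {A : Subring K} {c q : K} (hR : Reg A c q) (hc : c ∈ A) (hq : q ∈ A)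
    (hq1 : ∀ k : ℕ, 1 - q ^ (k + 1) ≠ 0) {e : K} (he : e ∈ Sc c q) (m : ℕ → ℕ) :
    ∀ (N : ℕ) (y : K), e * y ∈ A → (∏ k ∈ range N, (1 - q ^ (k + 1)) ^ (m k)) * y ∈ A → y ∈ A := by
  have hqm : ∀ k, 1 - q ^ (k + 1) ∈ A := fun k => A.sub_mem A.one_mem (A.pow_mem hq _)
  have one : ∀ (k n : ℕ) (y : K), e * y ∈ A → (1 - q ^ (k + 1)) ^ n * y ∈ A → y ∈ A := by
    intro k n
    induction n with
    | zero => intro y _ h; simpa using h
    | succ n ih =>
      intro y hy h
      apply ih y hy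
      have h1 : e * ((1 - q ^ (k + 1)) ^ (n + 1) * y) / (1 - q ^ (k + 1)) ∈ A := by
        have : e * ((1 - q ^ (k + 1)) ^ (n + 1) * y) / (1 - q ^ (k + 1)) = (1 - q ^ (k + 1)) ^ n * (e * y) := by
          rw [pow_succ]; field_simp [hq1 k]
        rw [this]
        exact A.mul_mem (A.pow_mem (hqm k) n) hy
      have h2 := hR.ext hc hq k he _ h h1
      have : (1 - q ^ (k + 1)) ^ (n + 1) * y / (1 - q ^ (k + 1)) = (1 - q ^ (k + 1)) ^ n * y := by
        rw [pow_succ]; field_simp [hq1 k]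
      rw [this] at h2
      exact h2
  intro N
  induction N with
  | zero => intro y _ h; simpa using h
  | succ N ih =>
    intro y hy h
    apply ih y hy
    apply one N (m N)
    · have : e * ((∏ k ∈ range N, (1 - q ^ (k + 1)) ^ (m k)) * y)
          = (∏ k ∈ range N, (1 - q ^ (k + 1)) ^ (m k)) * (e * y) := by ring
      rw [this]
      exact A.mul_mem (A.prod_mem fun k _ => A.pow_mem (hqm k) _) hy
    · rw [prod_range_succ] at h
      have : (1 - q ^ (N + 1)) ^ m N * ((∏ k ∈ range N, (1 - q ^ (k + 1)) ^ (m k)) * y)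
          = (∏ k ∈ range N, (1 - q ^ (k + 1)) ^ (m k)) * (1 - q ^ (N + 1)) ^ m N * y := by ring
      rw [this]; exact h

/-- the general statement -/
theorem main {A : Subring K} {c q : K} (hR : Reg A c q) (hc : c ∈ A) (hq : q ∈ A)
    (hq1 : ∀ k : ℕ, 1 - q ^ (k + 1) ≠ 0) (F G : PowerSeries K) (s : K)
    (h0 : constantCoeff F = 1)
    (hF : ∀ n, T (fun k => (1 - c * q ^ k) * (1 - q ^ (k + 1))) n * coeff n F ∈ A)
    (hG : ∀ n, T (fun k => (1 - c * q ^ k) * (1 - q ^ (k + 1))) (n + 1) * (coeff n G * s) ∈ A)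
    (n : ℕ) (hL : coeff n (G * F⁻¹) * s ∈ L A c q hc hq) :
    (∏ k ∈ range (n + 1), (1 - c * q ^ k) ^ ((n + 1) / (k + 1))) * (coeff n (G * F⁻¹) * s) ∈ A := by
  have ht : ∀ k, (fun k => (1 - c * q ^ k) * (1 - q ^ (k + 1))) k ∈ A := fun k =>
    A.mul_mem (A.sub_mem A.one_mem (A.mul_mem hc (A.pow_mem hq _))) (A.sub_mem A.one_mem (A.pow_mem hq _))
  have h1 := ratio_mem A _ ht F G s h0 hF hG n
  obtain ⟨e, he, h2⟩ := hL
  have hD : (∏ k ∈ range (n + 1), (1 - c * q ^ k) ^ ((n + 1) / (k + 1))) ∈ A :=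
    A.prod_mem fun k _ => A.pow_mem (A.sub_mem A.one_mem (A.mul_mem hc (A.pow_mem hq _))) _
  apply clear hR hc hq hq1 he (fun k => (n + 1) / (k + 1)) (n + 1)
  · have : e * ((∏ k ∈ range (n + 1), (1 - c * q ^ k) ^ ((n + 1) / (k + 1))) * (coeff n (G * F⁻¹) * s))
        = (∏ k ∈ range (n + 1), (1 - c * q ^ k) ^ ((n + 1) / (k + 1))) * (e * (coeff n (G * F⁻¹) * s)) := by ring
    rw [this]; exact A.mul_mem hD h2
  · have e1 : T (fun k => (1 - c * q ^ k) * (1 - q ^ (k + 1))) (n + 1)
        = (∏ k ∈ range (n + 1), (1 - q ^ (k + 1)) ^ ((n + 1) / (k + 1)))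
          * (∏ k ∈ range (n + 1), (1 - c * q ^ k) ^ ((n + 1) / (k + 1))) := by
      unfold T
      rw [← prod_mul_distrib]
      apply prod_congr rfl
      intro k _
      rw [mul_pow]; ring
    rw [e1, mul_assoc] at h1
    exact h1

/-! ### the hypergeometric series -/

lemma poch_mem {A : Subring K} {x q : K} (hx : x ∈ A) (hq : q ∈ A) (n : ℕ) : poch x q n ∈ A :=
  A.prod_mem fun _ _ => A.sub_mem A.one_mem (A.mul_mem hx (A.pow_mem hq _))

lemma poch_ne {x q : K} (h : ∀ j : ℕ, 1 - x * q ^ j ≠ 0) (n : ℕ) : poch x q n ≠ 0 :=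
  Finset.prod_ne_zero_iff.mpr fun j _ => h j

lemma poch_succ (x q : K) (n : ℕ) : poch x q (n + 1) = poch x q n * (1 - x * q ^ n) := by
  unfold poch; rw [prod_range_succ]

lemma poch_succ' (x q : K) (n : ℕ) : poch x q (n + 1) = (1 - x) * poch (x * q) q n := by
  unfold poch
  rw [prod_range_succ', pow_zero, mul_one, mul_comm]
  congr 1
  apply prod_congr rfl
  intro j _
  rw [pow_succ]; ring

lemma phi_zero (a b c q : K) : constantCoeff (phi a b c q) = 1 := by
  rw [← PowerSeries.coeff_zero_eq_constantCoeff_apply]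
  simp [phi, poch]

lemma phi_mem {A : Subring K} {a b c q : K} (ha : a ∈ A) (hb : b ∈ A) (hc : c ∈ A) (hq : q ∈ A)
    (hc1 : ∀ j : ℕ, 1 - c * q ^ j ≠ 0) (hq1 : ∀ k : ℕ, 1 - q ^ (k + 1) ≠ 0) (n : ℕ) :
    T (fun k => (1 - c * q ^ k) * (1 - q ^ (k + 1))) n * coeff n (phi a b c q) ∈ A := by
  have ht : ∀ k, (fun k => (1 - c * q ^ k) * (1 - q ^ (k + 1))) k ∈ A := fun k =>
    A.mul_mem (A.sub_mem A.one_mem (A.mul_mem hc (A.pow_mem hq _))) (A.sub_mem A.one_mem (A.pow_mem hq _))
  obtain ⟨x, hx, hxe⟩ := T_prod A _ ht n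
  have hq2 : ∀ j : ℕ, 1 - q * q ^ j ≠ 0 := fun j => by rw [← pow_succ']; exact hq1 j
  have e : ∏ k ∈ range n, (fun k => (1 - c * q ^ k) * (1 - q ^ (k + 1))) k = poch q q n * poch c q n := by
    unfold poch
    rw [← prod_mul_distrib]
    apply prod_congr rfl
    intro k _
    simp only
    rw [pow_succ']; ring
  rw [hxe, e]
  have h1 := poch_ne hq2 n
  have h2 := poch_ne hc1 n
  have : x * (poch q q n * poch c q n) * coeff n (phi a b c q) = x * (poch a q n * poch b q n) := by
    simp only [phi, PowerSeries.coeff_mk]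
    field_simp
  rw [this]
  exact A.mul_mem hx (A.mul_mem (poch_mem ha hq n) (poch_mem hb hq n))

lemma phi_mem' {A : Subring K} {a b c q : K} (ha : a ∈ A) (hb : b ∈ A) (hc : c ∈ A) (hq : q ∈ A)
    (hc1 : ∀ j : ℕ, 1 - c * q ^ j ≠ 0) (hq1 : ∀ k : ℕ, 1 - q ^ (k + 1) ≠ 0) (n : ℕ) :
    T (fun k => (1 - c * q ^ k) * (1 - q ^ (k + 1))) (n + 1) * (coeff n (phi a b (c * q) q) * (1 - c)⁻¹) ∈ A := by
  have ht : ∀ k, (fun k => (1 - c * q ^ k) * (1 - q ^ (k + 1))) k ∈ A := fun k =>
    A.mul_mem (A.sub_mem A.one_mem (A.mul_mem hc (A.pow_mem hq _))) (A.sub_mem A.one_mem (A.pow_mem hq _))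
  obtain ⟨x, hx, hxe⟩ := T_prod A _ ht (n + 1)
  have hq2 : ∀ j : ℕ, 1 - q * q ^ j ≠ 0 := fun j => by rw [← pow_succ']; exact hq1 j
  have hc2 : ∀ j : ℕ, 1 - c * q * q ^ j ≠ 0 := fun j => by rw [mul_assoc, ← pow_succ']; exact hc1 (j + 1)
  have hc3 : (1 - c) ≠ 0 := by simpa using hc1 0
  have e : ∏ k ∈ range (n + 1), (fun k => (1 - c * q ^ k) * (1 - q ^ (k + 1))) k
      = (1 - q * q ^ n) * poch q q n * ((1 - c) * poch (c * q) q n) := by
    rw [← poch_succ', mul_comm (1 - q * q ^ n), ← poch_succ]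
    unfold poch
    rw [← prod_mul_distrib]
    apply prod_congr rfl
    intro k _
    simp only
    rw [pow_succ']; ring
  rw [hxe, e]
  have h1 := poch_ne hq2 n
  have h2 := poch_ne hc2 n
  have : x * ((1 - q * q ^ n) * poch q q n * ((1 - c) * poch (c * q) q n)) * (coeff n (phi a b (c * q) q) * (1 - c)⁻¹)
      = x * (1 - q * q ^ n) * (poch a q n * poch b q n) := by
    simp only [phi, PowerSeries.coeff_mk]
    generalize poch (c * q) q n = u at h2 ⊢
    generalize poch q q n = v at h1 ⊢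
    field_simp
  rw [this]
  exact A.mul_mem (A.mul_mem hx (A.sub_mem A.one_mem (A.mul_mem hq (A.pow_mem hq _))))
    (A.mul_mem (poch_mem ha hq n) (poch_mem hb hq n))

/-! ### functional equations -/

section fe

variable {a b c q : K} (hc1 : ∀ j : ℕ, 1 - c * q ^ j ≠ 0) (hq1 : ∀ k : ℕ, 1 - q ^ (k + 1) ≠ 0)
include hc1 hq1

lemma E2 : phi a b c q - rescale q (phi a b c q)
    = C ((1 - a) * (1 - b) / (1 - c)) * (X * phi (a * q) (b * q) (c * q) q) := by
  have hq2 : ∀ j : ℕ, 1 - q * q ^ j ≠ 0 := fun j => by rw [← pow_succ']; exact hq1 j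
  have hc2 : ∀ j : ℕ, 1 - c * q * q ^ j ≠ 0 := fun j => by rw [mul_assoc, ← pow_succ']; exact hc1 (j + 1)
  have hc3 : (1 - c) ≠ 0 := by simpa using hc1 0
  ext n
  cases n with
  | zero =>
    rw [map_sub, coeff_rescale, coeff_C_mul, coeff_zero_X_mul]
    simp
  | succ n =>
    rw [map_sub, coeff_rescale, coeff_C_mul, coeff_succ_X_mul]
    simp only [phi, PowerSeries.coeff_mk]
    rw [poch_succ' a, poch_succ' b, poch_succ' c, poch_succ q]
    have h1 := poch_ne hq2 n
    have h2 := poch_ne hc2 n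
    have h3 := hq2 n
    rw [pow_succ']
    field_simp

lemma E1 : (1 - C (a + b - a * b) * X) * phi (a * q) (b * q) (c * q) q
      - (C c - C (a * b * q) * X) * rescale q (phi (a * q) (b * q) (c * q) q) = C (1 - c) * phi a b c q := by
  have hq2 : ∀ j : ℕ, 1 - q * q ^ j ≠ 0 := fun j => by rw [← pow_succ']; exact hq1 j
  have hc2 : ∀ j : ℕ, 1 - c * q * q ^ j ≠ 0 := fun j => by rw [mul_assoc, ← pow_succ']; exact hc1 (j + 1)
  have hc3 : (1 - c) ≠ 0 := by simpa using hc1 0
  ext n
  rw [sub_mul, sub_mul, one_mul, mul_assoc, mul_assoc, LinearMap.map_sub, LinearMap.map_sub,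
    LinearMap.map_sub, coeff_C_mul, coeff_C_mul, coeff_C_mul, coeff_C_mul, coeff_rescale]
  cases n with
  | zero => simp [phi, poch]
  | succ n =>
    rw [coeff_succ_X_mul, coeff_succ_X_mul, coeff_rescale]
    simp only [phi, PowerSeries.coeff_mk]
    rw [poch_succ' a, poch_succ' b, poch_succ' c, poch_succ q, poch_succ (a * q), poch_succ (b * q),
      poch_succ (c * q)]
    have h1 := poch_ne hq2 n
    have h2 := poch_ne hc2 n
    have h3 := hq2 n
    have h4 := hc2 n
    rw [pow_succ']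
    generalize poch (c * q) q n = u at h2 ⊢
    generalize poch q q n = v at h1 ⊢
    generalize q ^ n = w at h3 h4 ⊢
    have h5 : 1 - q * w * c ≠ 0 := by
      have : 1 - q * w * c = 1 - c * q * w := by ring
      rw [this]; exact h4
    field_simp
    ring

lemma R2 : phi a b c q - rescale q (phi a b c q)
    = C ((1 - a) / (1 - c)) * (X * (phi (a * q) b (c * q) q - C b * rescale q (phi (a * q) b (c * q) q))) := by
  have hq2 : ∀ j : ℕ, 1 - q * q ^ j ≠ 0 := fun j => by rw [← pow_succ']; exact hq1 j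
  have hc2 : ∀ j : ℕ, 1 - c * q * q ^ j ≠ 0 := fun j => by rw [mul_assoc, ← pow_succ']; exact hc1 (j + 1)
  have hc3 : (1 - c) ≠ 0 := by simpa using hc1 0
  ext n
  cases n with
  | zero =>
    rw [map_sub, coeff_rescale, coeff_C_mul, coeff_zero_X_mul]
    simp
  | succ n =>
    rw [map_sub, coeff_rescale, coeff_C_mul, coeff_succ_X_mul, map_sub, coeff_C_mul, coeff_rescale]
    simp only [phi, PowerSeries.coeff_mk]
    rw [poch_succ' a, poch_succ b, poch_succ' c, poch_succ q]
    have h1 := poch_ne hq2 n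
    have h2 := poch_ne hc2 n
    have h3 := hq2 n
    rw [pow_succ']
    field_simp

lemma R3 : (1 - C a * X) * phi (a * q) b (c * q) q
      - (C c - C (a * b) * X) * rescale q (phi (a * q) b (c * q) q) = C (1 - c) * phi a b c q := by
  have hq2 : ∀ j : ℕ, 1 - q * q ^ j ≠ 0 := fun j => by rw [← pow_succ']; exact hq1 j
  have hc2 : ∀ j : ℕ, 1 - c * q * q ^ j ≠ 0 := fun j => by rw [mul_assoc, ← pow_succ']; exact hc1 (j + 1)
  have hc3 : (1 - c) ≠ 0 := by simpa using hc1 0
  ext n
  rw [sub_mul, sub_mul, one_mul, mul_assoc, mul_assoc, LinearMap.map_sub, LinearMap.map_sub,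
    LinearMap.map_sub, coeff_C_mul, coeff_C_mul, coeff_C_mul, coeff_C_mul, coeff_rescale]
  cases n with
  | zero => simp [phi, poch]
  | succ n =>
    rw [coeff_succ_X_mul, coeff_succ_X_mul, coeff_rescale]
    simp only [phi, PowerSeries.coeff_mk]
    rw [poch_succ' a, poch_succ b, poch_succ' c, poch_succ q, poch_succ (a * q), poch_succ (c * q)]
    have h1 := poch_ne hq2 n
    have h2 := poch_ne hc2 n
    have h3 := hq2 n
    have h4 := hc2 n
    rw [pow_succ']
    generalize poch (c * q) q n = u at h2 ⊢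
    generalize poch q q n = v at h1 ⊢
    generalize q ^ n = w at h3 h4 ⊢
    have h5 : 1 - q * w * c ≠ 0 := by
      have : 1 - q * w * c = 1 - c * q * w := by ring
      rw [this]; exact h4
    field_simp
    ring

end fe

/-- coefficients up to `n` in a subring -/
def upto (B : Subring K) (n : ℕ) (F : PowerSeries K) : Prop := ∀ m ≤ n, coeff m F ∈ B

lemma upto.mul {B : Subring K} {n : ℕ} {F G : PowerSeries K} (hF : upto B n F) (hG : upto B n G) :
    upto B n (F * G) := by
  intro m hm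
  rw [coeff_mul]
  apply B.sum_mem
  rintro ⟨i, j⟩ hij
  rw [Finset.HasAntidiagonal.mem_antidiagonal] at hij
  simp only at hij ⊢
  exact B.mul_mem (hF i (by omega)) (hG j (by omega))

lemma upto.add {B : Subring K} {n : ℕ} {F G : PowerSeries K} (hF : upto B n F) (hG : upto B n G) :
    upto B n (F + G) := fun m hm => by rw [map_add]; exact B.add_mem (hF m hm) (hG m hm)

lemma upto.sub {B : Subring K} {n : ℕ} {F G : PowerSeries K} (hF : upto B n F) (hG : upto B n G) :
    upto B n (F - G) := fun m hm => by rw [map_sub]; exact B.sub_mem (hF m hm) (hG m hm)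

lemma upto_C {B : Subring K} {n : ℕ} {x : K} (hx : x ∈ B) : upto B n (C x) := by
  intro m _
  rw [coeff_C]
  split_ifs
  · exact hx
  · exact B.zero_mem

lemma upto_X {B : Subring K} {n : ℕ} : upto B n (X : PowerSeries K) := by
  intro m _
  rw [coeff_X]
  split_ifs
  · exact B.one_mem
  · exact B.zero_mem

lemma upto.rescale {B : Subring K} {n : ℕ} {F : PowerSeries K} {q : K} (hq : q ∈ B) (hF : upto B n F) :
    upto B n (PowerSeries.rescale q F) := by
  intro m hm
  rw [coeff_rescale]; exact B.mul_mem (B.pow_mem hq _) (hF m hm)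

section rec

variable {A : Subring K} {a b c q : K} (ha : a ∈ A) (hb : b ∈ A) (hc : c ∈ A) (hq : q ∈ A)
  (hc1 : ∀ j : ℕ, 1 - c * q ^ j ≠ 0) (hq1 : ∀ k : ℕ, 1 - q ^ (k + 1) ≠ 0)
include ha hb hc1 hq1

lemma inv_c_mem : (1 - c)⁻¹ ∈ L A c q hc hq := by
  have hc3 : (1 - c) ≠ 0 := by simpa using hc1 0
  apply L_div A c q hc hq 0 (L_of_mem A c q hc hq A.one_mem)
  rw [pow_zero, mul_one]; exact mul_inv_cancel₀ hc3

lemma gamma_mem (n : ℕ) : coeff n (phi (a * q) (b * q) (c * q) q * (phi a b c q)⁻¹) ∈ L A c q hc hq := by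
  set B := L A c q hc hq with hB
  set F := phi a b c q with hF
  set G := phi (a * q) (b * q) (c * q) q with hG
  have hF0 : constantCoeff F ≠ 0 := by rw [hF, phi_zero]; exact one_ne_zero
  have hFF : F * F⁻¹ = 1 := PowerSeries.mul_inv_cancel F hF0
  set Γ := G * F⁻¹ with hΓ
  have hΓF : Γ * F = G := by rw [hΓ, mul_assoc, mul_comm F⁻¹, hFF, mul_one]
  have hinv := inv_c_mem ha hb hc hq hc1 hq1
  have haB : a ∈ B := L_of_mem A c q hc hq ha
  have hbB : b ∈ B := L_of_mem A c q hc hq hb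
  have hcB : c ∈ B := L_of_mem A c q hc hq hc
  have hqB : q ∈ B := L_of_mem A c q hc hq hq
  have hκ : (1 - a) * (1 - b) / (1 - c) ∈ B := by
    rw [div_eq_mul_inv]
    exact B.mul_mem (B.mul_mem (B.sub_mem B.one_mem haB) (B.sub_mem B.one_mem hbB)) hinv
  have h1 := E1 (a := a) (b := b) hc1 hq1
  have h2 := E2 (a := a) (b := b) hc1 hq1
  rw [← hF, ← hG] at h1 h2
  set κ := (1 - a) * (1 - b) / (1 - c) with hκd
  -- the Riccati equation
  have hr : rescale q F * F⁻¹ = 1 - C κ * (X * Γ) := by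
    have : rescale q F = F - C κ * (X * G) := by rw [← h2]; ring
    rw [this, sub_mul, hFF, hΓ]; ring
  have hrG : rescale q G * F⁻¹ = rescale q Γ * (1 - C κ * (X * Γ)) := by
    rw [← hr, ← mul_assoc, ← map_mul, hΓF]
  have key : Γ - C c * rescale q Γ = C (1 - c) + X * (C (a + b - a * b) * Γ - C (a * b * q) * rescale q Γ
      - C κ * ((C c - C (a * b * q) * X) * (rescale q Γ * Γ))) := by
    have h3 : ((1 - C (a + b - a * b) * X) * G - (C c - C (a * b * q) * X) * rescale q G) * F⁻¹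
        = C (1 - c) := by rw [h1, mul_assoc, hFF, mul_one]
    have h4 : ((1 - C (a + b - a * b) * X) * G - (C c - C (a * b * q) * X) * rescale q G) * F⁻¹
        = (1 - C (a + b - a * b) * X) * Γ - (C c - C (a * b * q) * X) * (rescale q G * F⁻¹) := by
      rw [hΓ]; ring
    rw [h4, hrG] at h3
    rw [← h3]; ring
  have claim : ∀ n, upto B n Γ := by
    intro n
    induction n with
    | zero =>
      intro m hm
      have hm0 : m = 0 := by omega
      subst hm0
      have h5 := congrArg (coeff 0) key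
      rw [map_sub, map_add, coeff_zero_X_mul, add_zero, coeff_C_mul, coeff_rescale, pow_zero, one_mul,
        coeff_C, if_pos rfl] at h5
      apply L_div A c q hc hq 0 (L_of_mem A c q hc hq (A.sub_mem A.one_mem hc))
      rw [pow_zero, mul_one]; linear_combination h5
    | succ n ih =>
      intro m hm
      rcases Nat.lt_or_ge m (n + 1) with h | h
      · exact ih m (by omega)
      · have hmn : m = n + 1 := by omega
        subst hmn
        have h5 := congrArg (coeff (n + 1)) key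
        rw [map_sub, map_add, coeff_succ_X_mul, coeff_C_mul, coeff_rescale, coeff_C,
          if_neg (Nat.succ_ne_zero n), zero_add] at h5
        have h6 : upto B n (C (a + b - a * b) * Γ - C (a * b * q) * rescale q Γ
            - C κ * ((C c - C (a * b * q) * X) * (rescale q Γ * Γ))) := by
          have g1 : a + b - a * b ∈ B := B.sub_mem (B.add_mem haB hbB) (B.mul_mem haB hbB)
          have g2 : a * b * q ∈ B := B.mul_mem (B.mul_mem haB hbB) hqB
          exact (((upto_C g1).mul ih).sub ((upto_C g2).mul (ih.rescale hqB))).sub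
            ((upto_C hκ).mul (((upto_C hcB).sub ((upto_C g2).mul upto_X)).mul ((ih.rescale hqB).mul ih)))
        apply L_div A c q hc hq (n + 1) (h6 n le_rfl)
        linear_combination h5
  exact claim n n le_rfl

lemma gamma'_mem (n : ℕ) : coeff n (phi (a * q) b (c * q) q * (phi a b c q)⁻¹) ∈ L A c q hc hq := by
  set B := L A c q hc hq with hB
  set F := phi a b c q with hF
  set G := phi (a * q) b (c * q) q with hG
  have hF0 : constantCoeff F ≠ 0 := by rw [hF, phi_zero]; exact one_ne_zero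
  have hFF : F * F⁻¹ = 1 := PowerSeries.mul_inv_cancel F hF0
  set Γ := G * F⁻¹ with hΓ
  have hΓF : Γ * F = G := by rw [hΓ, mul_assoc, mul_comm F⁻¹, hFF, mul_one]
  have hinv := inv_c_mem ha hb hc hq hc1 hq1
  have haB : a ∈ B := L_of_mem A c q hc hq ha
  have hbB : b ∈ B := L_of_mem A c q hc hq hb
  have hcB : c ∈ B := L_of_mem A c q hc hq hc
  have hqB : q ∈ B := L_of_mem A c q hc hq hq
  have hκ : (1 - a) / (1 - c) ∈ B := by
    rw [div_eq_mul_inv]
    exact B.mul_mem (B.sub_mem B.one_mem haB) hinv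
  have h1 := R3 (a := a) (b := b) hc1 hq1
  have h2 := R2 (a := a) (b := b) hc1 hq1
  rw [← hF, ← hG] at h1 h2
  set κ := (1 - a) / (1 - c) with hκd
  set V := rescale q G * F⁻¹ with hV
  have hr : rescale q F * F⁻¹ = 1 - C κ * (X * (Γ - C b * V)) := by
    have : rescale q F = F - C κ * (X * (G - C b * rescale q G)) := by rw [← h2]; ring
    rw [this, sub_mul, hFF, hΓ, hV]; ring
  have hrG : V = rescale q Γ + X * (C (-κ) * (rescale q Γ * (Γ - C b * V))) := by
    have : V = rescale q Γ * (1 - C κ * (X * (Γ - C b * V))) := by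
      rw [← hr, ← mul_assoc, ← map_mul, hΓF]
    rw [map_neg]; linear_combination this
  have key : Γ - C c * V = C (1 - c) + X * (C a * Γ - C (a * b) * V) := by
    have h3 : ((1 - C a * X) * G - (C c - C (a * b) * X) * rescale q G) * F⁻¹
        = C (1 - c) := by rw [h1, mul_assoc, hFF, mul_one]
    have h4 : ((1 - C a * X) * G - (C c - C (a * b) * X) * rescale q G) * F⁻¹
        = (1 - C a * X) * Γ - (C c - C (a * b) * X) * V := by
      rw [hΓ, hV]; ring
    rw [h4] at h3
    rw [← h3]; ring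
  have claim : ∀ n, upto B n Γ ∧ upto B n V := by
    intro n
    induction n with
    | zero =>
      have h5 := congrArg (coeff 0) key
      have h6 := congrArg (coeff 0) hrG
      rw [map_sub, map_add, coeff_zero_X_mul, add_zero, coeff_C_mul, coeff_C, if_pos rfl] at h5
      rw [map_add, coeff_zero_X_mul, add_zero, coeff_rescale, pow_zero, one_mul] at h6
      have hΓ0 : coeff 0 Γ ∈ B := by
        apply L_div A c q hc hq 0 (L_of_mem A c q hc hq (A.sub_mem A.one_mem hc))
        rw [pow_zero, mul_one]; linear_combination h5 + c * h6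
      constructor
      · intro m hm
        have hm0 : m = 0 := by omega
        subst hm0; exact hΓ0
      · intro m hm
        have hm0 : m = 0 := by omega
        subst hm0; rw [h6]; exact hΓ0
    | succ n ih =>
      obtain ⟨ih1, ih2⟩ := ih
      have h5 := congrArg (coeff (n + 1)) key
      have h6 := congrArg (coeff (n + 1)) hrG
      rw [map_sub, map_add, coeff_succ_X_mul, coeff_C_mul, coeff_C, if_neg (Nat.succ_ne_zero n), zero_add] at h5
      rw [map_add, coeff_succ_X_mul, coeff_rescale] at h6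
      have g1 : a * b ∈ B := B.mul_mem haB hbB
      have u1 : upto B n (C a * Γ - C (a * b) * V) := ((upto_C haB).mul ih1).sub ((upto_C g1).mul ih2)
      have u2 : upto B n (C (-κ) * (rescale q Γ * (Γ - C b * V))) :=
        (upto_C (B.neg_mem hκ)).mul ((ih1.rescale hqB).mul (ih1.sub ((upto_C hbB).mul ih2)))
      have hΓn : coeff (n + 1) Γ ∈ B := by
        apply L_div A c q hc hq (n + 1) (B.add_mem (u1 n le_rfl) (B.mul_mem hcB (u2 n le_rfl)))
        linear_combination h5 + c * h6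
      constructor
      · intro m hm
        rcases Nat.lt_or_ge m (n + 1) with h | h
        · exact ih1 m (by omega)
        · have hmn : m = n + 1 := by omega
          subst hmn; exact hΓn
      · intro m hm
        rcases Nat.lt_or_ge m (n + 1) with h | h
        · exact ih2 m (by omega)
        · have hmn : m = n + 1 := by omega
          subst hmn; rw [h6]
          exact B.add_mem (B.mul_mem (B.pow_mem hqB _) hΓn) (u2 n le_rfl)
  exact (claim n).1 n le_rfl

end rec

/-! ### the regularity hypothesis for independent indeterminates -/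

lemma poly_dvd {S : Type*} [CommRing S] (u v : S) (p : Polynomial S)
    (h : (Polynomial.C u : Polynomial S) ∣ p * (1 - Polynomial.X * Polynomial.C v)) :
    (Polynomial.C u : Polynomial S) ∣ p := by
  rw [Polynomial.C_dvd_iff_dvd_coeff] at h ⊢
  intro n
  induction n with
  | zero =>
    have := h 0
    rw [mul_sub, mul_one, Polynomial.coeff_sub, ← mul_assoc, Polynomial.coeff_mul_C, Polynomial.coeff_mul_X_zero, zero_mul, sub_zero] at this
    exact this
  | succ n ih =>
    have := h (n + 1)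
    rw [mul_sub, mul_one, Polynomial.coeff_sub, ← mul_assoc, Polynomial.coeff_mul_C, Polynomial.coeff_mul_X] at this
    have h2 := dvd_add this (dvd_mul_of_dvd_left ih v)
    rwa [sub_add_cancel] at h2

/-! ### the field of rational functions -/

/-- the polynomial ring `ℤ[a,b,c,q]` -/
abbrev R : Type := MvPolynomial (Fin 4) ℤ

/-- the field `ℚ(a,b,c,q)`, as the fraction field of `ℤ[a,b,c,q]` -/
abbrev Kf : Type := FractionRing R

/-- the four indeterminates `a, b, c, q` (numbered `0, 1, 2, 3`) as elements of the field -/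
noncomputable def va : Kf := algebraMap R Kf (MvPolynomial.X 0)
@[inherit_doc va] noncomputable def vb : Kf := algebraMap R Kf (MvPolynomial.X 1)
@[inherit_doc va] noncomputable def vc : Kf := algebraMap R Kf (MvPolynomial.X 2)
@[inherit_doc va] noncomputable def vq : Kf := algebraMap R Kf (MvPolynomial.X 3)

lemma R_reg (k j : ℕ) (p : R)
    (h : (1 - MvPolynomial.X 3 ^ (k + 1) : R) ∣ p * (1 - MvPolynomial.X 2 * MvPolynomial.X 3 ^ j)) :
    (1 - MvPolynomial.X 3 ^ (k + 1) : R) ∣ p := by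
  let e : R ≃ₐ[ℤ] Polynomial (MvPolynomial (Fin 3) ℤ) :=
    (MvPolynomial.renameEquiv ℤ (Equiv.swap (0 : Fin 4) 2)).trans (MvPolynomial.finSuccEquiv ℤ 3)
  have e2 : e (MvPolynomial.X 2) = Polynomial.X := by
    simp only [e, AlgEquiv.trans_apply, MvPolynomial.renameEquiv_apply, MvPolynomial.rename_X,
      Equiv.swap_apply_right]
    exact MvPolynomial.finSuccEquiv_X_zero
  have e3 : e (MvPolynomial.X 3) = Polynomial.C (MvPolynomial.X 2) := by
    simp only [e, AlgEquiv.trans_apply, MvPolynomial.renameEquiv_apply, MvPolynomial.rename_X]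
    have : (Equiv.swap (0 : Fin 4) 2) 3 = Fin.succ 2 := by decide
    rw [this]
    exact MvPolynomial.finSuccEquiv_X_succ
  have h1 := (map_dvd e h)
  rw [map_mul, map_sub, map_sub, map_one, map_mul, map_pow, map_pow, e2, e3] at h1
  have h2 : (1 - Polynomial.C (MvPolynomial.X 2) ^ (k + 1) : Polynomial (MvPolynomial (Fin 3) ℤ))
      = Polynomial.C (1 - MvPolynomial.X 2 ^ (k + 1)) := by simp
  rw [h2, ← map_pow] at h1
  have h3 := poly_dvd _ _ _ h1
  have h4 := (map_dvd e.symm h3)
  rw [AlgEquiv.symm_apply_apply] at h4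
  have h5 : e.symm (Polynomial.C (1 - MvPolynomial.X 2 ^ (k + 1))) = (1 - MvPolynomial.X 3 ^ (k + 1) : R) := by
    rw [← h2, ← e3, ← map_pow, ← map_one e, ← map_sub, AlgEquiv.symm_apply_apply]
  rwa [h5] at h4

lemma hq1 (k : ℕ) : (1 : Kf) - vq ^ (k + 1) ≠ 0 := by
  have h : (1 - MvPolynomial.X 3 ^ (k + 1) : R) ≠ 0 := by
    intro h
    have := congrArg (MvPolynomial.eval (fun _ => (0 : ℤ))) h
    simp at this
  have h2 : (1 : Kf) - vq ^ (k + 1) = algebraMap R Kf (1 - MvPolynomial.X 3 ^ (k + 1)) := by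
    simp [vq]
  rw [h2]
  exact (map_ne_zero_iff _ (IsFractionRing.injective R Kf)).mpr h

lemma hc1 (j : ℕ) : (1 : Kf) - vc * vq ^ j ≠ 0 := by
  have h : (1 - MvPolynomial.X 2 * MvPolynomial.X 3 ^ j : R) ≠ 0 := by
    intro h
    have := congrArg (MvPolynomial.eval (fun _ => (0 : ℤ))) h
    simp at this
  have h2 : (1 : Kf) - vc * vq ^ j = algebraMap R Kf (1 - MvPolynomial.X 2 * MvPolynomial.X 3 ^ j) := by
    simp [vq, vc]
  rw [h2]
  exact (map_ne_zero_iff _ (IsFractionRing.injective R Kf)).mpr h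

lemma reg : Reg (algebraMap R Kf).range vc vq := by
  rintro k j y ⟨p, rfl⟩ ⟨s, hs⟩
  have hne := hq1 k
  rw [eq_div_iff hne] at hs
  have h2 : algebraMap R Kf (p * (1 - MvPolynomial.X 2 * MvPolynomial.X 3 ^ j))
      = algebraMap R Kf ((1 - MvPolynomial.X 3 ^ (k + 1)) * s) := by
    simp only [map_mul, map_sub, map_one, map_pow]
    unfold vc vq at hs
    rw [mul_comm (1 - _) (algebraMap R Kf s), hs]
    ring
  have h3 := IsFractionRing.injective R Kf h2
  obtain ⟨t, ht⟩ := R_reg k j p ⟨s, h3⟩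
  refine ⟨t, ?_⟩
  rw [eq_div_iff hne, ht]
  simp only [map_mul, map_sub, map_one, map_pow]
  unfold vq
  ring

end Pool.Agent.Helper264.QRatio
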