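import Mathlib
import Pool.Agent.V11100.Duality

/-!
# Perturbation of semi-Fredholm operators: a gliding hump argument
-/

set_option autoImplicit false
open Filter Topology Submodule

namespace Pool.Agent.Helper264.SemiFred

/-- Gliding hump. -/
theorem hump {V W : Type*} [NormedAddCommGroup V] [NormedSpace ℂ V] [NormedAddCommGroup W]
    [NormedSpace ℂ W] (c : ℕ → V →ₗ[ℂ] ℂ)
    (hc1 : ∀ v (s : Finset ℕ), ∑ i ∈ s, ‖c i v‖ ≤ ‖v‖) (E S : V →ₗ[ℂ] W) {C : ℝ} (hC : 0 < C)
    (hE : ∀ v t, (∀ i, ‖c i v‖ ≤ t) → ‖E v‖ ≤ C * t)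
    (V₀ : Submodule ℂ V) {δ : ℝ} (hδ : 0 < δ) (hT : ∀ v ∈ V₀, δ * ‖v‖ ≤ ‖S v‖ + ‖E v‖)
    (hS : ∀ (m : ℕ) (ε : ℝ), 0 < ε → ∃ v ∈ V₀, ‖v‖ = 1 ∧ (∀ i < m, c i v = 0) ∧ ‖S v‖ ≤ ε) :
    False := by
  set κ : ℝ := δ / (2 * C) with hκ
  have hκ0 : 0 < κ := by positivity
  have hCκ : C * κ = δ / 2 := by rw [hκ]; field_simp
  have hsum : ∀ v, Tendsto (fun i => ‖c i v‖) atTop (𝓝 0) := by
    intro v
    exact (summable_of_sum_le (fun i => norm_nonneg _) (hc1 v)).tendsto_atTop_zero
  have hP : ∀ n : ℕ, ∀ ε : ℝ, 0 < ε → ∃ v ∈ V₀, (∀ i, ‖c i v‖ ≤ 1 + ε) ∧ ‖S v‖ ≤ ε ∧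
      ∃ m : ℕ, n * (κ / 2) ≤ ∑ i ∈ Finset.range m, ‖c i v‖ := by
    intro n
    induction n with
    | zero =>
      intro ε hε
      refine ⟨0, V₀.zero_mem, ?_, ?_, 0, ?_⟩
      · intro i; simp; linarith
      · simp; exact hε.le
      · simp
    | succ n ih =>
      intro ε hε
      obtain ⟨v, hv0, hv1, hv2, m, hm⟩ := ih (ε / 2) (by positivity)
      obtain ⟨m₀, hm₀⟩ : ∃ m₀, ∀ i ≥ m₀, ‖c i v‖ ≤ min ε (κ / 2) := by
        have h := (hsum v).eventually (ge_mem_nhds (show (0 : ℝ) < min ε (κ / 2) from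
          lt_min hε (by positivity)))
        exact eventually_atTop.1 h
      set M := max m m₀ with hM
      obtain ⟨w, hw0, hw1, hw2, hw3⟩ := hS M (min (ε / 2) (δ / 4)) (lt_min (by positivity) (by positivity))
      have hwc : ∀ i, ‖c i w‖ ≤ 1 := by
        intro i
        have := hc1 w {i}
        simpa [hw1] using this
      obtain ⟨i₀, hi₀⟩ : ∃ i₀, κ < ‖c i₀ w‖ := by
        by_contra hcon
        push Not at hcon
        have h1 := hE w κ hcon
        have h2 := hT w hw0
        rw [hw1, mul_one] at h2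
        have h3 := hw3.trans (min_le_right _ _)
        rw [hCκ] at h1
        linarith
      have hi₀M : M ≤ i₀ := by
        by_contra hcon
        push Not at hcon
        rw [hw2 i₀ hcon, norm_zero] at hi₀
        linarith
      refine ⟨v + w, V₀.add_mem hv0 hw0, ?_, ?_, i₀ + 1, ?_⟩
      · intro i
        rw [map_add]
        by_cases hi : i < M
        · rw [hw2 i hi, add_zero]
          exact (hv1 i).trans (by linarith)
        · push Not at hi
          refine (norm_add_le _ _).trans ?_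
          have h1 := (hm₀ i ((le_max_right _ _).trans hi)).trans (min_le_left _ _)
          have h2 := hwc i
          linarith
      · rw [map_add]
        refine (norm_add_le _ _).trans ?_
        have := hw3.trans (min_le_left _ _)
        linarith
      · have h1 : ∑ i ∈ Finset.range m, ‖c i v‖ ≤ ∑ i ∈ Finset.range i₀, ‖c i (v + w)‖ := by
          have h2 : ∑ i ∈ Finset.range m, ‖c i v‖ = ∑ i ∈ Finset.range m, ‖c i (v + w)‖ := by
            apply Finset.sum_congr rfl
            intro i hi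
            rw [Finset.mem_range] at hi
            rw [map_add, hw2 i (lt_of_lt_of_le hi (le_max_left _ _)), add_zero]
          rw [h2]
          apply Finset.sum_le_sum_of_subset_of_nonneg
          · intro i hi
            rw [Finset.mem_range] at *
            exact lt_of_lt_of_le hi ((le_max_left _ _).trans hi₀M)
          · intro i _ _; exact norm_nonneg _
        have h3 : κ / 2 ≤ ‖c i₀ (v + w)‖ := by
          have h4 := (hm₀ i₀ ((le_max_right _ _).trans hi₀M)).trans (min_le_right _ _)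
          rw [map_add]
          have h5 : ‖c i₀ w‖ ≤ ‖c i₀ v + c i₀ w‖ + ‖c i₀ v‖ := by
            have := norm_sub_le (c i₀ v + c i₀ w) (c i₀ v)
            simpa using this
          linarith
        rw [Finset.sum_range_succ]
        push_cast
        linarith
  obtain ⟨n, hn⟩ := exists_nat_gt ((1 + C * 2) / δ / (κ / 2))
  obtain ⟨v, hv0, hv1, hv2, m, hm⟩ := hP n 1 one_pos
  have h1 := hm.trans (hc1 v _)
  have h2 := hT v hv0
  have h3 := hE v (1 + 1) hv1
  have h4 : ‖v‖ ≤ (1 + C * 2) / δ := by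
    rw [le_div_iff₀ hδ]
    nlinarith
  rw [div_lt_iff₀ (by positivity)] at hn
  linarith

variable {X : Type*} [NormedAddCommGroup X] [NormedSpace ℂ X]

/-- A bounded operator is semi-Fredholm if its range is closed and its kernel is
finite-dimensional or its range has finite codimension. -/
def IsSemiFredholm (T : X →L[ℂ] X) : Prop :=
  IsClosed (T.range : Set X) ∧
    (FiniteDimensional ℂ T.ker ∨ FiniteDimensional ℂ (X ⧸ T.range))

/-- A quantitative failure of a lower bound gives unit vectors. -/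
lemma exists_unit {V W : Type*} [NormedAddCommGroup V] [NormedSpace ℂ V] [NormedAddCommGroup W]
    [NormedSpace ℂ W] (S : V →ₗ[ℂ] W) (N : Submodule ℂ V)
    (h : ¬ ∃ ε : ℝ, 0 < ε ∧ ∀ v ∈ N, ε * ‖v‖ ≤ ‖S v‖) (ε : ℝ) (hε : 0 < ε) :
    ∃ v ∈ N, ‖v‖ = 1 ∧ ‖S v‖ ≤ ε := by
  push Not at h
  obtain ⟨v, hv, hv2⟩ := h ε hε
  have hv0 : 0 < ‖v‖ := by
    rcases (norm_nonneg v).eq_or_lt with h0 | h0
    · exfalso
      rw [← h0, mul_zero] at hv2
      exact absurd (norm_nonneg (S v)) (not_le.2 hv2)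
    · exact h0
  refine ⟨((‖v‖⁻¹ : ℝ) : ℂ) • v, N.smul_mem _ hv, ?_, ?_⟩
  · rw [norm_smul, Complex.norm_real, norm_inv, norm_norm, inv_mul_cancel₀ hv0.ne']
  · rw [map_smul, norm_smul, Complex.norm_real, norm_inv, norm_norm, inv_mul_le_iff₀ hv0, mul_comm]
    exact hv2.le

section primal

variable [CompleteSpace X]

/-- An operator with closed range and finite-dimensional kernel is bounded below on a
closed subspace of finite codimension. -/
lemma exists_lower (T : X →L[ℂ] X) (hT : IsClosed (T.range : Set X))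
    (hk : FiniteDimensional ℂ T.ker) :
    ∃ M : Submodule ℂ X, IsClosed (M : Set X) ∧ M.CoFG ∧ ∃ δ : ℝ, 0 < δ ∧
      ∀ v ∈ M, δ * ‖v‖ ≤ ‖T v‖ := by
  obtain ⟨M, hM1, hM2⟩ := (Submodule.ClosedComplemented.of_finiteDimensional
    (𝕜 := ℂ) T.ker).exists_isClosed_isCompl
  have hMc : M.CoFG := Submodule.FG.cofg_of_isCompl hM2 (Submodule.fg_iff_finiteDimensional _ |>.2 hk)
  refine ⟨M, hM1, hMc, ?_⟩
  have : CompleteSpace M := hM1.completeSpace_coe
  have hinj : Function.Injective (T.domRestrict M) := by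
    intro a b hab
    have h1 : T ((a : X) - b) = 0 := by
      rw [map_sub, sub_eq_zero]
      exact hab
    have h2 : ((a : X) - b) ∈ T.ker ⊓ M := ⟨h1, M.sub_mem a.2 b.2⟩
    rw [hM2.inf_eq_bot, Submodule.mem_bot, sub_eq_zero] at h2
    exact Subtype.ext h2
  have hrange : Set.range (T.domRestrict M) = (T.range : Set X) := by
    ext y
    constructor
    · rintro ⟨a, rfl⟩
      exact ⟨a, rfl⟩
    · rintro ⟨x, rfl⟩
      have hx : x ∈ T.ker ⊔ M := by rw [hM2.sup_eq_top]; trivial
      obtain ⟨k, hk, m, hm, rfl⟩ := Submodule.mem_sup.1 hx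
      refine ⟨⟨m, hm⟩, ?_⟩
      have hk' : T k = 0 := hk
      show T m = T (k + m)
      rw [map_add, hk', zero_add]
  obtain ⟨K, hK⟩ := ContinuousLinearMap.antilipschitz_of_injective_of_isClosed_range
    (T.domRestrict M) hinj (by rw [hrange]; exact hT)
  refine ⟨1 / ((K : ℝ) + 1), by positivity, ?_⟩
  intro v hv
  have h1 := hK.le_mul_dist (⟨v, hv⟩ : M) 0
  rw [map_zero, dist_zero_right, dist_zero_right] at h1
  have h2 : ‖v‖ ≤ K * ‖T v‖ := h1
  rw [div_mul_eq_mul_div, one_mul, div_le_iff₀ (by positivity)]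
  nlinarith [norm_nonneg (T v)]

/-- An operator which is bounded below on a closed subspace of finite codimension has closed range
and finite-dimensional kernel. -/
lemma of_lower (S : X →L[ℂ] X) (M : Submodule ℂ X) (hM1 : IsClosed (M : Set X)) (hM2 : M.CoFG)
    {δ : ℝ} (hδ : 0 < δ) (h : ∀ v ∈ M, δ * ‖v‖ ≤ ‖S v‖) :
    IsClosed (S.range : Set X) ∧ FiniteDimensional ℂ S.ker := by
  have : CompleteSpace M := hM1.completeSpace_coe
  have hanti : AntilipschitzWith (⟨1 / δ, by positivity⟩ : NNReal) (S.domRestrict M) := by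
    apply AddMonoidHomClass.antilipschitz_of_bound
    intro v
    have h1 := h v v.2
    show ‖(v : X)‖ ≤ 1 / δ * ‖S v‖
    rw [div_mul_eq_mul_div, one_mul, le_div_iff₀ hδ, mul_comm]
    exact h1
  have hemb := hanti.isClosedEmbedding (S.domRestrict M).uniformContinuous
  have h2 := (ContinuousLinearMap.isStrictMap_isClosed_range_iff_restrict S M hM1).2
    ⟨hemb.isEmbedding.isStrictMap, hemb.isClosed_range⟩
  refine ⟨h2.2, ?_⟩
  rw [← Submodule.fg_iff_finiteDimensional]
  refine hM2.fg_of_disjoint ?_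
  rw [Submodule.disjoint_def]
  intro x hx hxM
  have h3 := h x hxM
  have hx' : S x = 0 := hx
  rw [hx', norm_zero] at h3
  have : ‖x‖ ≤ 0 := by nlinarith [norm_nonneg x]
  exact norm_le_zero_iff.1 this

/-- Stability of closed range and finite-dimensional kernel. -/
theorem upper_stable (c : ℕ → X →L[ℂ] ℂ) (hc1 : ∀ v (s : Finset ℕ), ∑ i ∈ s, ‖c i v‖ ≤ ‖v‖)
    (T E : X →L[ℂ] X) {C : ℝ} (hC : 0 < C) (hE : ∀ v t, (∀ i, ‖c i v‖ ≤ t) → ‖E v‖ ≤ C * t)
    (hT : IsClosed (T.range : Set X)) (hk : FiniteDimensional ℂ T.ker) :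
    IsClosed ((T + E).range : Set X) ∧ FiniteDimensional ℂ (T + E).ker := by
  obtain ⟨M, hM1, hM2, δ, hδ, hlow⟩ := exists_lower T hT hk
  let N : ℕ → Submodule ℂ X := fun m => M ⊓ ⨅ i ∈ Finset.range m, (c i).ker
  have hNc : ∀ m, IsClosed (N m : Set X) := by
    intro m
    have : (N m : Set X) = (M : Set X) ∩ ⋂ i ∈ Finset.range m, ((c i).ker : Set X) := by
      simp [N]
    rw [this]
    exact hM1.inter (isClosed_biInter fun i _ => (c i).isClosed_ker)
  have hNf : ∀ m, (N m).CoFG := by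
    intro m
    have hk : ∀ i, ((c i).ker : Submodule ℂ X).CoFG := by
      intro i
      have e := (c i).toLinearMap.quotKerEquivRange
      exact Module.Finite.equiv e.symm
    have h2 : ∀ s : Finset ℕ, (⨅ i ∈ s, (c i).ker : Submodule ℂ X).CoFG := by
      intro s
      induction s using Finset.induction_on with
      | empty => simp
      | insert a s ha ih =>
        rw [Finset.iInf_insert]
        exact (hk a).inf ih
    exact hM2.inf (h2 _)
  by_cases hex : ∃ m : ℕ, ∃ ε : ℝ, 0 < ε ∧ ∀ v ∈ N m, ε * ‖v‖ ≤ ‖(T + E) v‖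
  · obtain ⟨m, ε, hε, h⟩ := hex
    exact of_lower (T + E) (N m) (hNc m) (hNf m) hε h
  · exfalso
    push Not at hex
    refine hump (fun i => (c i).toLinearMap) hc1 E.toLinearMap (T + E).toLinearMap hC hE M hδ ?_ ?_
    · intro v hv
      refine (hlow v hv).trans ?_
      have : T v = (T + E) v - E v := by simp
      rw [this]
      exact norm_sub_le _ _
    · intro m ε hε
      obtain ⟨v, hv, hv1, hv2⟩ := exists_unit (T + E).toLinearMap (N m) (by
        push Not
        exact hex m) ε hε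
      refine ⟨v, hv.1, hv1, ?_, hv2⟩
      intro i hi
      have h3 := hv.2
      simp only [SetLike.mem_coe, Submodule.mem_iInf] at h3
      exact h3 i (Finset.mem_range.2 hi)

end primal

section dual

variable [CompleteSpace X]

/-- Stability of closed range of finite codimension. -/
theorem lower_stable (e : ℕ → X) (hc1 : ∀ (f : StrongDual ℂ X) (s : Finset ℕ),
      ∑ i ∈ s, ‖f (e i)‖ ≤ ‖f‖)
    (T E : X →L[ℂ] X) {C : ℝ} (hC : 0 < C)
    (hE : ∀ (f : StrongDual ℂ X) t, (∀ i, ‖f (e i)‖ ≤ t) → ‖f.comp E‖ ≤ C * t)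
    (hk : FiniteDimensional ℂ (X ⧸ T.range)) :
    IsClosed ((T + E).range : Set X) ∧ FiniteDimensional ℂ (X ⧸ (T + E).range) := by
  -- a finite-dimensional complement of the range
  obtain ⟨N, hN⟩ := Submodule.exists_isCompl T.range
  have hNf : FiniteDimensional ℂ N :=
    (Submodule.fg_iff_finiteDimensional _).1 (Submodule.CoFG.fg_of_isCompl hN hk)
  have : CompleteSpace N := FiniteDimensional.complete ℂ N
  let u : X × N →L[ℂ] X := T.comp (ContinuousLinearMap.fst ℂ X N) +
    N.subtypeL.comp (ContinuousLinearMap.snd ℂ X N)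
  have hu : Function.Surjective u := by
    intro y
    have hy : y ∈ T.range ⊔ N := by rw [hN.sup_eq_top]; trivial
    obtain ⟨a, ⟨x, rfl⟩, b, hb, rfl⟩ := Submodule.mem_sup.1 hy
    exact ⟨(x, ⟨b, hb⟩), rfl⟩
  obtain ⟨K, hK, hKu⟩ := u.exists_preimage_norm_le hu
  let V₀ : Submodule ℂ (StrongDual ℂ X) :=
    { carrier := {f | ∀ n ∈ N, f n = 0}
      add_mem' := by
        intro a b ha hb n hn
        rw [_root_.add_apply, ha n hn, hb n hn, add_zero]
      zero_mem' := by intro n _; rfl
      smul_mem' := by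
        intro r a ha n hn
        rw [_root_.smul_apply, ha n hn, smul_zero] }
  have hlow : ∀ f ∈ V₀, (1 / K) * ‖f‖ ≤ ‖f.comp T‖ := by
    intro f hf
    rw [div_mul_eq_mul_div, one_mul, div_le_iff₀ hK]
    apply f.opNorm_le_bound (by positivity)
    intro y
    obtain ⟨⟨x, n⟩, hx, hxn⟩ := hKu y
    have h1 : f y = f (T x) := by
      rw [← hx]
      show f (T x + n) = f (T x)
      rw [map_add, hf n n.2, add_zero]
    rw [h1]
    have h2 : ‖f (T x)‖ ≤ ‖f.comp T‖ * ‖x‖ := (f.comp T).le_opNorm x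
    have h3 : ‖x‖ ≤ K * ‖y‖ := (norm_fst_le (x, n)).trans hxn
    calc ‖f (T x)‖ ≤ ‖f.comp T‖ * ‖x‖ := h2
      _ ≤ ‖f.comp T‖ * (K * ‖y‖) := by gcongr
      _ = ‖f.comp T‖ * K * ‖y‖ := by ring
  let c : ℕ → StrongDual ℂ X →ₗ[ℂ] ℂ := fun i =>
    { toFun := fun f => f (e i), map_add' := fun _ _ => rfl, map_smul' := fun _ _ => rfl }
  let pre : (X →L[ℂ] X) → (StrongDual ℂ X →ₗ[ℂ] StrongDual ℂ X) := fun A =>
    { toFun := fun f => f.comp A, map_add' := fun _ _ => rfl, map_smul' := fun _ _ => rfl }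
  let W : ℕ → Submodule ℂ (StrongDual ℂ X) := fun m =>
    V₀ ⊓ ⨅ i ∈ Finset.range m, (c i).ker
  by_cases hex : ∃ m : ℕ, ∃ ε : ℝ, 0 < ε ∧ ∀ f ∈ W m, ε * ‖f‖ ≤ ‖f.comp (T + E)‖
  · obtain ⟨m, ε, hε, h⟩ := hex
    let F : Submodule ℂ X := N ⊔ Submodule.span ℂ (e '' (Finset.range m : Set ℕ))
    have hFf : FiniteDimensional ℂ F := by
      have : FiniteDimensional ℂ (Submodule.span ℂ (e '' (Finset.range m : Set ℕ))) :=
        FiniteDimensional.span_of_finite ℂ ((Finset.finite_toSet _).image _)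
      exact Submodule.finiteDimensional_sup _ _
    have hFc : IsClosed (F : Set X) := F.closed_of_finiteDimensional
    have hsurj : Function.Surjective (F.mkQL.comp (T + E)) := by
      apply Pool.Agent.V11100.surjective_of_dual_bound (𝕜 := ℂ) (F.mkQL.comp (T + E))
        (C := 1 / ε) (by positivity)
      intro ψ
      have hmem : ψ.comp F.mkQL ∈ W m := by
        refine ⟨?_, ?_⟩
        · intro n hn
          have : F.mkQL n = 0 := (Submodule.Quotient.mk_eq_zero F).2 (le_sup_left (a := N) hn)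
          show ψ (F.mkQL n) = 0
          rw [this, map_zero]
        · simp only [SetLike.mem_coe, Submodule.mem_iInf]
          intro i hi
          have : F.mkQL (e i) = 0 := (Submodule.Quotient.mk_eq_zero F).2
            (le_sup_right (a := N) (Submodule.subset_span ⟨i, hi, rfl⟩))
          show ψ (F.mkQL (e i)) = 0
          rw [this, map_zero]
      have h1 := h _ hmem
      have h2 : ‖ψ‖ ≤ ‖ψ.comp F.mkQL‖ := by
        apply ψ.opNorm_le_bound (norm_nonneg _)
        intro q
        apply le_of_forall_pos_le_add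
        intro η hη
        set A := ‖ψ.comp F.mkQL‖ with hA
        have hA0 : 0 ≤ A := norm_nonneg _
        obtain ⟨y, hy0, hy⟩ := Submodule.Quotient.norm_mk_lt q
          (show (0 : ℝ) < η / (A + 1) by positivity)
        have h3 : ‖ψ q‖ ≤ A * ‖y‖ := by
          rw [← hy0]
          exact (ψ.comp F.mkQL).le_opNorm y
        calc ‖ψ q‖ ≤ A * ‖y‖ := h3
          _ ≤ A * (‖q‖ + η / (A + 1)) := by gcongr
          _ = A * ‖q‖ + A / (A + 1) * η := by field_simp
          _ ≤ A * ‖q‖ + 1 * η := by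
            gcongr
            rw [div_le_one (by positivity)]
            linarith
          _ = A * ‖q‖ + η := by ring
      rw [div_mul_eq_mul_div, one_mul, le_div_iff₀ hε, mul_comm]
      refine le_trans ?_ h1
      gcongr
    have hst : IsStrictMap (F.mkQL.comp (T + E)) :=
      ((F.mkQL.comp (T + E)).isOpenMap hsurj).isStrictMap (F.mkQL.comp (T + E)).continuous
    have h2 := (ContinuousLinearMap.isStrictMap_isClosed_range_iff_quotient (T + E) F
      (Submodule.ClosedComplemented.of_finiteDimensional F)).2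
      ⟨hst, by
        rw [LinearMap.range_eq_top.2 hsurj]
        exact isClosed_univ⟩
    refine ⟨h2.2, ?_⟩
    have hcod : Codisjoint F (T + E).range := by
      rw [codisjoint_iff]
      rw [eq_top_iff]
      intro y _
      obtain ⟨x, hx⟩ := hsurj (F.mkQL y)
      have h3 : y - (T + E) x ∈ F := by
        rw [← Submodule.Quotient.mk_eq_zero F, Submodule.Quotient.mk_sub, sub_eq_zero]
        exact hx.symm
      rw [Submodule.mem_sup]
      exact ⟨_, h3, _, ⟨x, rfl⟩, by simp⟩
    exact Submodule.FG.cofg_of_codisjoint hcod (Submodule.fg_iff_finiteDimensional _ |>.2 hFf)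
  · exfalso
    push Not at hex
    refine hump c hc1 (pre E) (pre (T + E)) hC hE V₀ (show (0 : ℝ) < 1 / K by positivity) ?_ ?_
    · intro f hf
      refine (hlow f hf).trans ?_
      have : f.comp T = f.comp (T + E) - f.comp E := by ext x; simp
      rw [this]
      exact norm_sub_le _ _
    · intro m ε hε
      obtain ⟨v, hv, hv1, hv2⟩ := exists_unit (pre (T + E)) (W m) (by
        push Not
        exact hex m) ε hε
      refine ⟨v, hv.1, hv1, ?_, hv2⟩
      intro i hi
      have h3 := hv.2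
      simp only [SetLike.mem_coe, Submodule.mem_iInf] at h3
      exact h3 i (Finset.mem_range.2 hi)

end dual

end Pool.Agent.Helper264.SemiFred
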