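import Pool.Agent.H9R2.TF.Fin

/-! Existence, minimality and scaling of solutions of the Thomas-Fermi equation (shared lemmas). -/

set_option autoImplicit false
open MeasureTheory Set Filter Topology Metric
open scoped RealInnerProductSpace BigOperators ENNReal
open Pool.Agent.Helper557 Pool.Agent.Helper557.TFP Pool.Agent.H9R2.TF

namespace Pool.Agent.Helper264.TFDil

/-! ### the dominating density -/

lemma int52 (r : ℝ) : IntegrableOn (fun u : E3 => ‖u‖ ^ (-(5/2) : ℝ)) (ball 0 r) := by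
  rcases le_or_gt r 0 with h | h
  · rw [ball_eq_empty.2 h]; exact integrableOn_empty
  rw [integrableOn_fun_norm_addHaar volume (f := fun y : ℝ => y ^ (-(5/2) : ℝ))]
  have hfr : Module.finrank ℝ E3 = 3 := finrank_euclideanSpace_fin
  rw [hfr]
  have h1 : IntegrableOn (fun y : ℝ => y ^ (-(1/2) : ℝ)) (Ioo 0 r) :=
    (intervalIntegral.integrableOn_Ioo_rpow_iff h).mpr (by norm_num)
  refine h1.congr_fun ?_ measurableSet_Ioo
  intro y hy
  have hy0 : 0 < y := hy.1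
  show y ^ (-(1/2) : ℝ) = y ^ (3 - 1) • y ^ (-(5/2) : ℝ)
  rw [smul_eq_mul, ← Real.rpow_natCast, ← Real.rpow_add hy0]
  norm_num

/-- the dominating density of one nucleus -/
noncomputable def qq (Z Φ : ℝ) (u : E3) : ℝ := be (Z / ‖u‖ - Φ)

lemma qq_nonneg (Z Φ : ℝ) (u : E3) : 0 ≤ qq Z Φ u := be_nonneg _

lemma qq_meas (Z Φ : ℝ) : Measurable (qq Z Φ) :=
  be_meas.comp ((measurable_const.div measurable_norm).sub_const Φ)

lemma qq_nice {Z Φ : ℝ} (hZ : 0 ≤ Z) (hΦ : 0 < Φ) : Nice (qq Z Φ) := by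
  set r : ℝ := Z / Φ + 1 with hr
  have hr0 : 0 < r := by positivity
  set D : E3 → ℝ := (ball (0 : E3) r).indicator (fun u => ‖u‖ ^ (-(5/2) : ℝ)) with hD
  have hDi : Integrable D := (integrable_indicator_iff measurableSet_ball).2 (int52 r)
  have hD0 : ∀ u, 0 ≤ D u := fun u => indicator_nonneg (fun u _ => Real.rpow_nonneg (norm_nonneg _) _) u
  have key : ∀ u, qq Z Φ u ≤ (Z ^ (3/2 : ℝ) * r) * D u ∧ qq Z Φ u ^ (5/3 : ℝ) ≤ Z ^ (5/2 : ℝ) * D u := by
    intro u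
    have zero : qq Z Φ u = 0 → qq Z Φ u ≤ (Z ^ (3/2 : ℝ) * r) * D u ∧ qq Z Φ u ^ (5/3 : ℝ) ≤ Z ^ (5/2 : ℝ) * D u := by
      intro h
      have := hD0 u
      rw [h, Real.zero_rpow (by norm_num)]
      constructor <;> positivity
    by_cases hu : u ∈ ball (0 : E3) r
    swap
    · apply zero
      apply be_zero_of
      have h1 : r ≤ ‖u‖ := by simpa using hu
      have h2 : Z / ‖u‖ ≤ Φ := by
        rw [div_le_iff₀ (hr0.trans_le h1)]
        have : Φ * r ≤ Φ * ‖u‖ := mul_le_mul_of_nonneg_left h1 hΦ.le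
        have e : Φ * r = Z + Φ := by rw [hr]; field_simp
        linarith
      linarith
    rcases eq_or_lt_of_le (norm_nonneg u) with h0 | h0
    · apply zero
      apply be_zero_of
      rw [← h0, div_zero]; linarith
    have hDu : D u = ‖u‖ ^ (-(5/2) : ℝ) := indicator_of_mem hu _
    have hs : ‖u‖ < r := by simpa using hu
    have h1 : qq Z Φ u ≤ (Z / ‖u‖) ^ (3/2 : ℝ) := by
      unfold qq
      rw [← be_eq]
      exact be_mono (by linarith)
    have hZu : 0 ≤ Z / ‖u‖ := by positivity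
    rw [hDu]
    constructor
    · refine h1.trans ?_
      rw [Real.div_rpow hZ h0.le, div_eq_mul_inv, ← Real.rpow_neg h0.le, mul_assoc]
      refine mul_le_mul_of_nonneg_left ?_ (Real.rpow_nonneg hZ _)
      have : ‖u‖ ^ (-(3/2) : ℝ) = ‖u‖ * ‖u‖ ^ (-(5/2) : ℝ) := by
        rw [← Real.rpow_one_add' h0.le (by norm_num)]; norm_num
      rw [this]
      exact mul_le_mul_of_nonneg_right hs.le (Real.rpow_nonneg h0.le _)
    · refine (Real.rpow_le_rpow (qq_nonneg _ _ _) h1 (by norm_num)).trans ?_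
      rw [← Real.rpow_mul hZu, Real.div_rpow hZ h0.le, div_eq_mul_inv, ← Real.rpow_neg h0.le]
      norm_num
  refine ⟨qq_meas Z Φ, ?_, ?_⟩
  · refine (hDi.const_mul (Z ^ (3/2 : ℝ) * r)).mono' (qq_meas Z Φ).aestronglyMeasurable (Eventually.of_forall (fun u => ?_))
    rw [Real.norm_of_nonneg (qq_nonneg _ _ _)]
    exact (key u).1
  · refine (hDi.const_mul (Z ^ (5/2 : ℝ))).mono' ((qq_meas Z Φ).abs.pow_const _).aestronglyMeasurable
      (Eventually.of_forall (fun u => ?_))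
    rw [Real.norm_of_nonneg (Real.rpow_nonneg (abs_nonneg _) _), abs_of_nonneg (qq_nonneg _ _ _)]
    exact (key u).2

lemma nice_shift {g : E3 → ℝ} (hg : Nice g) (s : E3) : Nice (fun x => g (x - s)) :=
  ⟨hg.1.comp (measurable_id.sub_const s), hg.2.1.comp_sub_right s, hg.2.2.comp_sub_right s⟩

lemma nice_zero : Nice (fun _ => (0 : ℝ)) := Cl.zero.1

lemma nice_sum {k : ℕ} (g : Fin k → E3 → ℝ) (hg : ∀ j, Nice (g j)) : Nice (fun x => ∑ j, g j x) := by
  classical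
  have : ∀ S : Finset (Fin k), Nice (fun x => ∑ j ∈ S, g j x) := by
    intro S
    induction S using Finset.induction_on with
    | empty => simpa using nice_zero
    | insert a S ha ih =>
      have e : (fun x => ∑ j ∈ insert a S, g j x) = fun x => g a x + ∑ j ∈ S, g j x := by
        funext x; rw [Finset.sum_insert ha]
      rw [e]; exact nice_add (hg a) ih
  exact this _

variable {k : ℕ} {z : Fin k → ℝ} {R : Fin k → E3}

lemma dom0 (hz : ∀ j, 0 ≤ z j) {Φ : ℝ} (hΦ : 0 < Φ) (x : E3) :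
    be (VV z R x - Φ) = 0 ∨ ∃ j, be (VV z R x - Φ) ≤ qq (∑ j, z j) Φ (x - R j) := by
  rcases (Finset.univ : Finset (Fin k)).eq_empty_or_nonempty with h | h
  · left
    apply be_zero_of
    unfold VV
    rw [h, Finset.sum_empty]; linarith
  · right
    obtain ⟨j0, _, hj⟩ := Finset.exists_max_image Finset.univ (fun j => 1 / ‖x - R j‖) h
    refine ⟨j0, ?_⟩
    unfold qq
    apply be_mono
    have : VV z R x ≤ (∑ j, z j) / ‖x - R j0‖ := by
      unfold VV
      rw [Finset.sum_div]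
      refine Finset.sum_le_sum (fun j _ => ?_)
      have := mul_le_mul_of_nonneg_left (hj j (Finset.mem_univ j)) (hz j)
      rwa [mul_one_div, mul_one_div] at this
    linarith

lemma dom1 (hz : ∀ j, 0 ≤ z j) {Φ : ℝ} (hΦ : 0 < Φ) (x : E3) :
    be (VV z R x - Φ) ≤ ∑ j, qq (∑ j, z j) Φ (x - R j) := by
  rcases dom0 (R := R) hz hΦ x with h | ⟨j, h⟩
  · rw [h]; exact Finset.sum_nonneg (fun j _ => qq_nonneg _ _ _)
  · exact h.trans (Finset.single_le_sum (f := fun j => qq (∑ j, z j) Φ (x - R j)) (fun j _ => qq_nonneg _ _ _) (Finset.mem_univ j))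

lemma dom2 (hz : ∀ j, 0 ≤ z j) {Φ : ℝ} (hΦ : 0 < Φ) (x : E3) :
    be (VV z R x - Φ) ^ (5/3 : ℝ) ≤ ∑ j, qq (∑ j, z j) Φ (x - R j) ^ (5/3 : ℝ) := by
  rcases dom0 (R := R) hz hΦ x with h | ⟨j, h⟩
  · rw [h, Real.zero_rpow (by norm_num)]
    exact Finset.sum_nonneg (fun j _ => Real.rpow_nonneg (qq_nonneg _ _ _) _)
  · exact (Real.rpow_le_rpow (be_nonneg _) h (by norm_num)).trans
      (Finset.single_le_sum (f := fun j => qq (∑ j, z j) Φ (x - R j) ^ (5/3 : ℝ))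
      (fun j _ => Real.rpow_nonneg (qq_nonneg _ _ _) _) (Finset.mem_univ j))

lemma sumz_nonneg (hz : ∀ j, 0 ≤ z j) : 0 ≤ ∑ j, z j := Finset.sum_nonneg (fun j _ => hz j)

lemma rhoh_nice (hz : ∀ j, 0 ≤ z j) {Φ : ℝ} (hΦ : 0 < Φ) : Nice (fun x => be (VV z R x - Φ)) := by
  refine nice_of_le (nice_sum (fun j x => qq (∑ j, z j) Φ (x - R j)) (fun j => nice_shift (qq_nice (sumz_nonneg hz) hΦ) _))
    (be_meas.comp ((VV_meas z R).sub_const Φ)) (fun x => ?_)
  rw [abs_of_nonneg (be_nonneg _)]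
  exact (dom1 hz hΦ x).trans (le_abs_self _)

lemma kin_bound (hz : ∀ j, 0 ≤ z j) {Φ : ℝ} (hΦ : 0 < Φ) {ρ : E3 → ℝ} (hρ : ELs z R Φ ρ) :
    ∫ x, ρ x ^ (5/3 : ℝ) ≤ k * ∫ x, qq (∑ j, z j) Φ x ^ (5/3 : ℝ) := by
  have hq := qq_nice (sumz_nonneg hz) hΦ
  have hqi : Integrable (fun x => qq (∑ j, z j) Φ x ^ (5/3 : ℝ)) := by
    refine hq.2.2.congr (Eventually.of_forall (fun x => ?_))
    simp only
    rw [abs_of_nonneg (qq_nonneg _ _ _)]
  have hρi : Integrable (fun x => ρ x ^ (5/3 : ℝ)) := by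
    refine hρ.nice.2.2.congr (Eventually.of_forall (fun x => ?_))
    simp only
    rw [abs_of_nonneg (hρ.nonneg x)]
  have e : ∑ j : Fin k, ∫ x, qq (∑ j, z j) Φ (x - R j) ^ (5/3 : ℝ) = k * ∫ x, qq (∑ j, z j) Φ x ^ (5/3 : ℝ) := by
    rw [Finset.sum_congr rfl (fun j _ => integral_sub_right_eq_self (fun x => qq (∑ j, z j) Φ x ^ (5/3 : ℝ)) (R j))]
    simp
  rw [← e, ← integral_finsetSum _ (fun j _ => hqi.comp_sub_right (R j))]
  refine integral_mono hρi (integrable_finsetSum _ (fun j _ => hqi.comp_sub_right (R j))) (fun x => ?_)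
  refine (Real.rpow_le_rpow (hρ.nonneg x) ?_ (by norm_num)).trans (dom2 (R := R) hz hΦ x)
  rw [hρ.eq]
  apply be_mono
  have := pot_nonneg hρ.nonneg x
  linarith

lemma exists_ELs (hz : ∀ j, 0 ≤ z j) {Φ : ℝ} (hΦ : 0 < Φ) : ∃ ρ, ELs z R Φ ρ := by
  have hn := rhoh_nice (R := R) hz hΦ
  obtain ⟨τ, hτ, he⟩ := exists_EL (h := fun x => VV z R x - Φ) (kop_full hn) hn (fun x => be_nonneg _)
    ((VV_meas z R).sub_const _) (((vint z R hn).sub (hn.2.1.const_mul Φ)).congr (Eventually.of_forall (fun x => by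
      simp only [Pi.sub_apply]; ring)))
  refine ⟨τ, hτ.nice hn, fun x => ?_⟩
  have h1 := pot_nonneg (fun y => (hτ.2 y).1) x
  have h2 : be (VV z R x - Φ - pot τ x) ≤ be (VV z R x - Φ) := be_mono (by linarith)
  have h3 := he x
  rw [min_eq_right h2] at h3
  rw [h3]
  congr 1
  ring

lemma int53 {ρ : E3 → ℝ} (h : Nice ρ) (h0 : ∀ x, 0 ≤ ρ x) : Integrable (fun x => ρ x ^ (5/3 : ℝ)) := by
  refine h.2.2.congr (Eventually.of_forall (fun x => ?_))
  simp only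
  rw [abs_of_nonneg (h0 x)]

lemma int23 {ρ σ : E3 → ℝ} (hρ : Nice ρ) (hρ0 : ∀ x, 0 ≤ ρ x) (hσ : Nice σ) (hσ0 : ∀ x, 0 ≤ σ x) :
    Integrable (fun x => ρ x ^ (2/3 : ℝ) * σ x) := by
  refine ((int53 hρ hρ0).add (int53 hσ hσ0)).mono' ((hρ.1.pow_const _).mul hσ.1).aestronglyMeasurable
    (Eventually.of_forall (fun x => ?_))
  rw [Real.norm_of_nonneg (mul_nonneg (Real.rpow_nonneg (hρ0 x) _) (hσ0 x))]
  simp only [Pi.add_apply]
  have e : ∀ a : ℝ, 0 ≤ a → a ^ (5/3 : ℝ) = a ^ (2/3 : ℝ) * a := by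
    intro a ha
    rw [← Real.rpow_add_one' ha (by norm_num)]; norm_num
  rcases le_total (ρ x) (σ x) with h | h
  · have h1 : ρ x ^ (2/3 : ℝ) * σ x ≤ σ x ^ (2/3 : ℝ) * σ x :=
      mul_le_mul_of_nonneg_right (Real.rpow_le_rpow (hρ0 x) h (by norm_num)) (hσ0 x)
    rw [← e _ (hσ0 x)] at h1
    have := Real.rpow_nonneg (hρ0 x) (5/3)
    linarith
  · have h1 : ρ x ^ (2/3 : ℝ) * σ x ≤ ρ x ^ (2/3 : ℝ) * ρ x :=
      mul_le_mul_of_nonneg_left h (Real.rpow_nonneg (hρ0 x) _)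
    rw [← e _ (hρ0 x)] at h1
    have := Real.rpow_nonneg (hσ0 x) (5/3)
    linarith

lemma EL_min {Φ : ℝ} {ρ : E3 → ℝ} (hρ : ELs z R Φ ρ) {σ : E3 → ℝ} (hσ : Adm σ) :
    EF z R ρ + Φ * (∫ x, ρ x) ≤ EF z R σ + Φ * ∫ x, σ x := by
  have nρ := hρ.nice
  have ρ0 := hρ.nonneg
  have nσ := nice_of_adm hσ
  have σ0 := hσ.2.1
  set d : E3 → ℝ := fun x => σ x - ρ x with hd
  have nd : Nice d := nice_sub' nσ nρ
  have i1 : Integrable (fun x => ρ x ^ (2/3 : ℝ) * (σ x - ρ x)) := by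
    refine ((int23 nρ ρ0 nσ σ0).sub (int23 nρ ρ0 nρ ρ0)).congr (Eventually.of_forall (fun x => ?_))
    simp only [Pi.sub_apply]; ring
  -- kinetic
  have k1 : ∫ x, ρ x ^ (2/3 : ℝ) * (σ x - ρ x) ≤ 3/5 * (∫ x, σ x ^ (5/3 : ℝ)) - 3/5 * ∫ x, ρ x ^ (5/3 : ℝ) := by
    rw [← integral_const_mul, ← integral_const_mul, ← integral_sub ((int53 nσ σ0).const_mul _) ((int53 nρ ρ0).const_mul _)]
    refine integral_mono i1 (((int53 nσ σ0).const_mul _).sub ((int53 nρ ρ0).const_mul _)) (fun x => ?_)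
    simp only
    have := sc2 (σ0 x) (ρ0 x)
    linarith
  -- nuclear
  have k2 : ∫ x, VV z R x * d x = (∫ x, VV z R x * σ x) - ∫ x, VV z R x * ρ x := by
    rw [← integral_sub (vint z R nσ) (vint z R nρ)]
    congr 1; funext x; simp only [hd]; ring
  -- Coulomb
  have k3 : ∫ x, σ x * pot σ x = (∫ x, ρ x * pot ρ x) + 2 * (∫ x, d x * pot ρ x) + ∫ x, d x * pot d x := by
    have h := (kop_full (ρh := ρ) nρ).exp nρ nd 1
    have e1 : (fun y => ρ y + 1 * d y) = σ := by funext y; simp only [hd]; ring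
    have e2 : (fun x => (ρ x + 1 * d x) * pot (fun y => ρ y + 1 * d y) x) = fun x => σ x * pot σ x := by
      rw [e1]; funext x; simp only [hd]; ring
    rw [e2] at h
    rw [h]; ring
  have k4 := pot_pos nd
  have k5 : 0 ≤ ∫ x, d x * (ρ x ^ (2/3 : ℝ) - VV z R x + pot ρ x + Φ) := by
    refine integral_nonneg (fun x => ?_)
    simp only [Pi.zero_apply]
    set u := VV z R x - pot ρ x - Φ with hu
    have e1 : ρ x ^ (2/3 : ℝ) = max u 0 := by rw [hρ.eq x, be_pow]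
    have e2 : ρ x ^ (2/3 : ℝ) - VV z R x + pot ρ x + Φ = max u 0 - u := by rw [e1, hu]; ring
    rw [e2]
    rcases le_total u 0 with h | h
    · have e3 : ρ x = 0 := by rw [hρ.eq x]; exact be_zero_of h
      have e4 : d x = σ x := by simp only [hd]; rw [e3, sub_zero]
      rw [e4, max_eq_right h]
      exact mul_nonneg (σ0 x) (by linarith)
    · rw [max_eq_left h, sub_self, mul_zero]
  have i2 := vint z R nd
  have i3 : Integrable (fun x => d x * pot ρ x) := TF_E1_int d ρ nd.2.1 nρ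
  have k6 : ∫ x, d x * (ρ x ^ (2/3 : ℝ) - VV z R x + pot ρ x + Φ)
      = (∫ x, ρ x ^ (2/3 : ℝ) * (σ x - ρ x)) - (∫ x, VV z R x * d x) + (∫ x, d x * pot ρ x) + Φ * ∫ x, d x := by
    have i12 : Integrable (fun x => ρ x ^ (2/3 : ℝ) * (σ x - ρ x) - VV z R x * d x) := i1.sub i2
    have i123 : Integrable (fun x => ρ x ^ (2/3 : ℝ) * (σ x - ρ x) - VV z R x * d x + d x * pot ρ x) := i12.add i3
    rw [← integral_sub i1 i2, ← integral_add i12 i3, ← integral_const_mul, ← integral_add i123 (nd.2.1.const_mul Φ)]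
    congr 1; funext x; simp only [hd]; ring
  have k7 : ∫ x, d x = (∫ x, σ x) - ∫ x, ρ x := integral_sub nσ.2.1 nρ.2.1
  unfold EF
  rw [k6, k7, k2] at k5
  nlinarith [k5, k1, k3, k4]

/-! ### scaling -/

/-- The dilated density `x ↦ t³ ρ(t x)`. -/
noncomputable def sc (t : ℝ) (ρ : E3 → ℝ) (x : E3) : ℝ := t ^ 3 * ρ (t • x)

lemma int_smul {t : ℝ} (ht : 0 < t) (f : E3 → ℝ) : ∫ x, f (t • x) = (t ^ 3)⁻¹ * ∫ x, f x := by
  rw [Measure.integral_comp_smul volume f t, finrank_euclideanSpace_fin, abs_of_pos (by positivity), smul_eq_mul]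

lemma sc_adm {t : ℝ} (ht : 0 < t) {ρ : E3 → ℝ} (h : Adm ρ) : Adm (sc t ρ) := by
  refine ⟨measurable_const.mul (h.1.comp (measurable_const_smul t)), fun x => mul_nonneg (by positivity) (h.2.1 _), ?_, ?_⟩
  · exact (h.2.2.1.comp_smul ht.ne').const_mul _
  · refine ((h.2.2.2.comp_smul ht.ne').const_mul ((t ^ 3) ^ (5/3 : ℝ))).congr (Eventually.of_forall (fun x => ?_))
    simp only [sc]
    rw [Real.mul_rpow (by positivity) (h.2.1 _)]

lemma sc_mass {t : ℝ} (ht : 0 < t) (ρ : E3 → ℝ) : ∫ x, sc t ρ x = ∫ x, ρ x := by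
  unfold sc
  rw [integral_const_mul, int_smul ht]
  field_simp

lemma sc_kin {t : ℝ} (ht : 0 < t) {ρ : E3 → ℝ} (h0 : ∀ x, 0 ≤ ρ x) :
    ∫ x, sc t ρ x ^ (5/3 : ℝ) = t ^ 2 * ∫ x, ρ x ^ (5/3 : ℝ) := by
  have e : (fun x => sc t ρ x ^ (5/3 : ℝ)) = fun x => (t ^ 5) * (fun y => ρ y ^ (5/3 : ℝ)) (t • x) := by
    funext x
    simp only [sc]
    rw [Real.mul_rpow (by positivity) (h0 _)]
    congr 1
    rw [← Real.rpow_natCast, ← Real.rpow_natCast, ← Real.rpow_mul ht.le]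
    norm_num
  rw [e, integral_const_mul, int_smul ht (fun y => ρ y ^ (5/3 : ℝ))]
  field_simp

lemma norm_sc {t : ℝ} (ht : 0 < t) (x r : E3) : ‖t • x - r‖ = t * ‖x - t⁻¹ • r‖ := by
  have : t • x - r = t • (x - t⁻¹ • r) := by rw [smul_sub, smul_inv_smul₀ ht.ne']
  rw [this, norm_smul, Real.norm_of_nonneg ht.le]

lemma sc_VV {t : ℝ} (ht : 0 < t) (z : Fin k → ℝ) (R : Fin k → E3) (ρ : E3 → ℝ) :
    ∫ x, VV z (fun j => t⁻¹ • R j) x * sc t ρ x = t * ∫ x, VV z R x * ρ x := by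
  have e : (fun x => VV z (fun j => t⁻¹ • R j) x * sc t ρ x) = fun x => t ^ 4 * (fun y => VV z R y * ρ y) (t • x) := by
    funext x
    have h1 : VV z (fun j => t⁻¹ • R j) x = t * VV z R (t • x) := by
      unfold VV
      rw [Finset.mul_sum]
      refine Finset.sum_congr rfl (fun j _ => ?_)
      rw [norm_sc ht]
      rw [div_mul_eq_div_div, mul_div_assoc', mul_div_assoc', mul_div_cancel_left₀ _ ht.ne']
    rw [h1]
    simp only [sc]
    ring
  rw [e, integral_const_mul, int_smul ht (fun y => VV z R y * ρ y)]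
  field_simp

lemma sc_pot {t : ℝ} (ht : 0 < t) (ρ : E3 → ℝ) (x : E3) : pot (sc t ρ) x = t * pot ρ (t • x) := by
  unfold pot
  have e : (fun y => sc t ρ y / ‖x - y‖) = fun y => t ^ 4 * (fun y => ρ y / ‖t • x - y‖) (t • y) := by
    funext y
    simp only [sc]
    rw [← smul_sub, norm_smul, Real.norm_of_nonneg ht.le]
    rcases eq_or_ne ‖x - y‖ 0 with h | h
    · rw [h]; simp
    · field_simp
  rw [e, integral_const_mul, int_smul ht (fun y => ρ y / ‖t • x - y‖)]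
  field_simp

lemma sc_D {t : ℝ} (ht : 0 < t) (ρ : E3 → ℝ) :
    ∫ x, sc t ρ x * pot (sc t ρ) x = t * ∫ x, ρ x * pot ρ x := by
  have e : (fun x => sc t ρ x * pot (sc t ρ) x) = fun x => t ^ 4 * (fun y => ρ y * pot ρ y) (t • x) := by
    funext x
    rw [sc_pot ht]
    simp only [sc]
    ring
  rw [e, integral_const_mul, int_smul ht (fun y => ρ y * pot ρ y)]
  field_simp


end Pool.Agent.Helper264.TFDil
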